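import Pool.Agent.Q21.MU.Iso
import Pool.Agent.Q21.MU.Inst

set_option autoImplicit false

namespace Pool.Agent.Results.MP_9969af_al.NotHeisenberg

open Pool.Q21.MU
open scoped commutatorElement

universe u v w

/-- `G` is a locally compact (Hausdorff) Mumford group with center isomorphic to the circle: the
commutators are central, the center is topologically isomorphic to the circle group, and for every
identification `ι` of the center with the circle the map `K → K^` given by the commutator, where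
`K = G / Z(G)`, is an isomorphism of topological groups. -/
structure IsMumfordGroup (G : Type u) [Group G] [TopologicalSpace G] : Prop where
  topGroup : IsTopologicalGroup G
  t2 : T2Space G
  locComp : LocallyCompactSpace G
  class2 : ∀ x y : G, ⁅x, y⁆ ∈ Subgroup.center G
  circle : Nonempty (Subgroup.center G ≃ₜ* Circle)
  mumford : ∀ ι : Subgroup.center G ≃ₜ* Circle,
    ∃ M : (G ⧸ Subgroup.center G) ≃ₜ* PontryaginDual (G ⧸ Subgroup.center G),
      ∀ x y : G, M (x : G ⧸ Subgroup.center G) (y : G ⧸ Subgroup.center G) = ι ⟨⁅x, y⁆, class2 x y⟩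

/-- The underlying space `A × E × F` of the generalized Heisenberg group `H(ω)`. -/
def Heis {E : Type u} {F : Type v} {A : Type w} [AddCommGroup E] [AddCommGroup F] [AddCommGroup A]
    (_ω : E →+ F →+ A) : Type (max u v w) := A × E × F

section Heis

variable {E : Type u} {F : Type v} {A : Type w} [AddCommGroup E] [AddCommGroup F] [AddCommGroup A]
variable (ω : E →+ F →+ A)

instance [TopologicalSpace E] [TopologicalSpace F] [TopologicalSpace A] : TopologicalSpace (Heis ω) :=
  inferInstanceAs (TopologicalSpace (A × E × F))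

theorem aux1 (a b c p q r : A) : (a + b + p) + c + (q + r) = a + (b + c + r) + (p + q) := by abel

theorem aux2 (a p : A) : (-a + p) + a + -p = 0 := by abel

/-- The group law `(a,b,c)(a',b',c') = (a+a'+ω(b,c'), b+b', c+c')`. -/
instance : Group (Heis ω) where
  mul x y := (x.1 + y.1 + ω x.2.1 y.2.2, x.2.1 + y.2.1, x.2.2 + y.2.2)
  one := (0, 0, 0)
  inv x := (-x.1 + ω x.2.1 x.2.2, -x.2.1, -x.2.2)
  mul_assoc x y z := by
    show ((x.1 + y.1 + ω x.2.1 y.2.2) + z.1 + ω (x.2.1 + y.2.1) z.2.2, x.2.1 + y.2.1 + z.2.1,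
      x.2.2 + y.2.2 + z.2.2) = (x.1 + (y.1 + z.1 + ω y.2.1 z.2.2) + ω x.2.1 (y.2.2 + z.2.2),
      x.2.1 + (y.2.1 + z.2.1), x.2.2 + (y.2.2 + z.2.2))
    rw [map_add, AddMonoidHom.add_apply, map_add]
    exact Prod.ext (aux1 _ _ _ _ _ _) (Prod.ext (add_assoc _ _ _) (add_assoc _ _ _))
  one_mul x := by
    show ((0 : A) + x.1 + ω 0 x.2.2, (0 : E) + x.2.1, (0 : F) + x.2.2) = x
    rw [map_zero, AddMonoidHom.zero_apply, zero_add, add_zero, zero_add, zero_add]
    rfl
  mul_one x := by
    show (x.1 + (0 : A) + ω x.2.1 0, x.2.1 + (0 : E), x.2.2 + (0 : F)) = x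
    rw [map_zero, add_zero, add_zero, add_zero, add_zero]
    rfl
  inv_mul_cancel x := by
    show ((-x.1 + ω x.2.1 x.2.2) + x.1 + ω (-x.2.1) x.2.2, -x.2.1 + x.2.1, -x.2.2 + x.2.2) = ((0 : A), (0 : E), (0 : F))
    rw [map_neg, AddMonoidHom.neg_apply, neg_add_cancel, neg_add_cancel]
    exact Prod.ext (aux2 _ _) rfl

variable {ω}

theorem heis_mul (x y : Heis ω) :
    x * y = (x.1 + y.1 + ω x.2.1 y.2.2, x.2.1 + y.2.1, x.2.2 + y.2.2) := rfl

/-- the projection endomorphism -/
def P0 : Heis ω →* Heis ω where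
  toFun x := (0, x.2.1, 0)
  map_one' := rfl
  map_mul' x y := by
    show ((0 : A), x.2.1 + y.2.1, (0 : F)) = (0 + 0 + ω x.2.1 0, x.2.1 + y.2.1, 0 + 0)
    rw [map_zero, add_zero, add_zero, add_zero]

theorem P0_idem (x : Heis ω) : P0 (P0 x) = P0 x := rfl

theorem P0_comm (x y : Heis ω) : P0 x * P0 y = P0 y * P0 x := by
  show ((0 : A) + 0 + ω x.2.1 0, x.2.1 + y.2.1, (0 : F) + 0) = (0 + 0 + ω y.2.1 0, y.2.1 + x.2.1, 0 + 0)
  rw [map_zero, map_zero, add_comm x.2.1]

theorem P0_cocomm (x y : Heis ω) :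
    (x * (P0 x)⁻¹) * (y * (P0 y)⁻¹) = (y * (P0 y)⁻¹) * (x * (P0 x)⁻¹) := by
  have key : ∀ x : Heis ω, x * (P0 x)⁻¹ = (x.1, (0 : E), x.2.2) := by
    intro x
    apply mul_inv_eq_of_eq_mul
    show x = (x.1 + 0 + ω 0 0, 0 + x.2.1, x.2.2 + 0)
    rw [map_zero, add_zero, add_zero, zero_add, add_zero]
    rfl
  rw [key, key]
  show (x.1 + y.1 + ω 0 y.2.2, (0 : E) + 0, x.2.2 + y.2.2) = (y.1 + x.1 + ω 0 x.2.2, 0 + 0, y.2.2 + x.2.2)
  rw [map_zero, AddMonoidHom.zero_apply, AddMonoidHom.zero_apply, add_comm x.1, add_comm x.2.2]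

theorem P0_center (x : Heis ω) (hx : x ∈ Subgroup.center (Heis ω)) : P0 x ∈ Subgroup.center (Heis ω) := by
  rw [Subgroup.mem_center_iff] at hx ⊢
  intro y
  have h : ∀ c : F, ω x.2.1 c = 0 := by
    intro c
    have h1 := hx ((0, 0, c) : A × E × F)
    have h2 : (0 : A) + x.1 + ω 0 x.2.2 = x.1 + 0 + ω x.2.1 c := congrArg Prod.fst h1
    rw [map_zero, AddMonoidHom.zero_apply, zero_add, add_zero] at h2
    generalize (x.1 : A) = a at h2
    exact (left_eq_add.1 h2)
  show (y.1 + 0 + ω y.2.1 0, y.2.1 + x.2.1, y.2.2 + 0) = (0 + y.1 + ω x.2.1 y.2.2, x.2.1 + y.2.1, 0 + y.2.2)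
  rw [h, map_zero, add_zero, add_zero, add_zero, zero_add, add_zero, zero_add, add_comm y.2.1]

end Heis

section Main

variable {D : Data}

/-- the group is a Mumford group -/
theorem isMumford : IsMumfordGroup (Gp D) where
  topGroup := inferInstance
  t2 := inferInstance
  locComp := inferInstance
  class2 := comm_mem
  circle := ⟨cIso⟩
  mumford := mumford

theorem not_heis {E : Type u} {F : Type v} {A : Type w} [AddCommGroup E] [AddCommGroup F] [AddCommGroup A]
    [TopologicalSpace E] [TopologicalSpace F] [TopologicalSpace A] (ω : E →+ F →+ A) :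
    IsEmpty (Gp D ≃ₜ* Heis ω) := by
  constructor
  intro φ
  -- the endomorphism
  let P : Gp D →* Gp D := (φ.symm.toMulEquiv.toMonoidHom.comp P0).comp φ.toMulEquiv.toMonoidHom
  have hP : ∀ g, P g = φ.symm (P0 (φ g)) := fun g => rfl
  have hPc : Continuous P := by
    have h0 : Continuous (P0 (ω := ω)) := by
      have : Continuous (fun x : A × E × F => ((0 : A), x.2.1, (0 : F))) :=
        Continuous.prodMk continuous_const ((continuous_fst.comp continuous_snd).prodMk continuous_const)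
      exact this
    exact φ.symm.continuous.comp (h0.comp φ.continuous)
  have hPid : ∀ g, P (P g) = P g := by
    intro g
    rw [hP, hP, φ.apply_symm_apply, P0_idem]
  have hPcomm : ∀ g h, P g * P h = P h * P g := by
    intro g h
    rw [hP, hP, ← map_mul φ.symm, ← map_mul φ.symm, P0_comm]
  have hPco : ∀ g h, (g * (P g)⁻¹) * (h * (P h)⁻¹) = (h * (P h)⁻¹) * (g * (P g)⁻¹) := by
    intro g h
    apply φ.injective
    simp only [map_mul, map_inv, hP, φ.apply_symm_apply]
    exact P0_cocomm _ _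
  have hPz : ∀ g : Gp D, g.x = 1 → (P g).x = 1 := by
    intro g hg
    rw [← Gp.mem_center] at hg ⊢
    rw [hP]
    have h1 : φ g ∈ Subgroup.center (Heis ω) := by
      rw [Subgroup.mem_center_iff] at hg ⊢
      intro y
      obtain ⟨z, rfl⟩ := φ.surjective y
      rw [← map_mul, hg, map_mul]
    have h2 := P0_center _ h1
    rw [Subgroup.mem_center_iff] at h2 ⊢
    intro y
    apply φ.injective
    rw [map_mul, map_mul, φ.apply_symm_apply, h2]
  -- independence of the circle coordinate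
  have hind : ∀ g : Gp D, (P g).x = (P ⟨1, g.x⟩).x := by
    intro g
    have h1 : g = ⟨g.t, 1⟩ * ⟨1, g.x⟩ := by
      apply Gp.ext
      · simp [pr_one_left]
      · simp
    conv_lhs => rw [h1, map_mul, Gp.mul_x, hPz ⟨g.t, 1⟩ rfl, one_mul]
  let π : RP D →* RP D :=
    { toFun := fun x => (P ⟨1, x⟩).x
      map_one' := hPz _ rfl
      map_mul' := fun x y => by
        have h1 := hind ((⟨1, x⟩ : Gp D) * ⟨1, y⟩)
        rw [map_mul, Gp.mul_x] at h1
        exact h1.symm }
  have hπ : ∀ x, π x = (P ⟨1, x⟩).x := fun x => rfl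
  refine no_proj π ?_ ?_ ?_ ?_
  · exact Gp.cont_x.comp (hPc.comp (Gp.cont_mk continuous_const continuous_id))
  · intro x
    rw [hπ, hπ, ← hind, hPid]
  · intro x y
    have h1 : ⁅P ⟨1, x⟩, P ⟨1, y⟩⁆ = 1 := commutatorElement_eq_one_iff_mul_comm.2 (hPcomm _ _)
    rw [Gp.comm_def] at h1
    exact congrArg Gp.t h1
  · intro x y
    have h1 : ⁅(⟨1, x⟩ : Gp D) * (P ⟨1, x⟩)⁻¹, (⟨1, y⟩ : Gp D) * (P ⟨1, y⟩)⁻¹⁆ = 1 :=
      commutatorElement_eq_one_iff_mul_comm.2 (hPco _ _)
    rw [Gp.comm_def] at h1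
    have h2 := congrArg Gp.t h1
    change (pr (x * (π x)⁻¹) (y * (π y)⁻¹)) ^ 2 = 1 at h2
    rw [← div_eq_mul_inv, ← div_eq_mul_inv] at h2
    exact h2

end Main

/-- There is a locally compact Mumford group with center isomorphic to the circle that is not
topologically isomorphic to any generalized Heisenberg group. -/
theorem result : ∃ (G : Type) (_ : Group G) (_ : TopologicalSpace G), IsMumfordGroup G ∧
    ∀ (E : Type u) (F : Type v) (A : Type w) [AddCommGroup E] [TopologicalSpace E]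
      [IsTopologicalAddGroup E] [AddCommGroup F] [TopologicalSpace F] [IsTopologicalAddGroup F]
      [AddCommGroup A] [TopologicalSpace A] [IsTopologicalAddGroup A] (ω : E →+ F →+ A),
      Continuous (fun z : E × F => ω z.1 z.2) → IsEmpty (G ≃ₜ* Heis ω) :=
  ⟨Gp Pool.Q21.MU.F.D, inferInstance, inferInstance, isMumford,
    fun _ _ _ _ _ _ _ _ _ _ _ _ ω _ => not_heis ω⟩

end Pool.Agent.Results.MP_9969af_al.NotHeisenberg
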